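import Pool.Agent.Helper87.CA.Goals

set_option autoImplicit false

open Finset Pool.Agent.Helper87.CA

namespace Pool.Agent.Helper94.CA

lemma wt2_nonneg (u : ℕ) (δ : ℤ × ℤ) : 0 ≤ wt2 u δ :=
  mul_nonneg (le_max_left _ _) (le_max_left _ _)

lemma wt2_le (u : ℕ) (δ : ℤ × ℤ) : wt2 u δ ≤ (u : ℝ) ^ 2 := by
  unfold wt2
  have hu : (0 : ℝ) ≤ u := Nat.cast_nonneg _
  have h1 : max 0 ((u : ℝ) - |(δ.1 : ℝ)|) ≤ u :=
    max_le hu (by have := abs_nonneg (δ.1 : ℝ); linarith)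
  have h2 : max 0 ((u : ℝ) - |(δ.2 : ℝ)|) ≤ u :=
    max_le hu (by have := abs_nonneg (δ.2 : ℝ); linarith)
  calc max 0 ((u : ℝ) - |(δ.1 : ℝ)|) * max 0 ((u : ℝ) - |(δ.2 : ℝ)|) ≤ u * u :=
        mul_le_mul h1 h2 (le_max_left _ _) hu
    _ = (u : ℝ) ^ 2 := by ring

lemma wt2_eq_zero (u : ℕ) (δ : ℤ × ℤ) (h : δ ∉ Box u) : wt2 u δ = 0 := by
  unfold wt2
  have key : ∀ a : ℤ, ¬ (-(u : ℤ) < a ∧ a < u) → max 0 ((u : ℝ) - |(a : ℝ)|) = 0 := by
    intro a ha
    apply max_eq_left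
    have h1 : (u : ℤ) ≤ |a| := by
      by_contra hc
      push Not at hc
      exact ha (abs_lt.mp hc)
    have h2 : ((u : ℤ) : ℝ) ≤ ((|a| : ℤ) : ℝ) := by exact_mod_cast h1
    rw [Int.cast_abs] at h2
    have h3 : ((u : ℤ) : ℝ) = (u : ℝ) := by norm_cast
    linarith
  unfold Box at h
  rw [Finset.mem_product, Finset.mem_Ioo, Finset.mem_Ioo, not_and_or] at h
  rcases h with h | h
  · rw [key _ h, zero_mul]
  · rw [key _ h, mul_zero]

lemma miss_nonneg {n : ℕ} (u : ℕ) (f : Fin n → Fin n) : 0 ≤ miss u f :=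
  Finset.sum_nonneg fun _ _ => wt2_nonneg _ _

lemma cw_mono {n : ℕ} (u : ℕ) (f : Fin n → Fin n) (I J : Finset (Fin n)) (h : I ⊆ J) (t : ℤ × ℤ) :
    cw u f I t ≤ cw u f J t :=
  Finset.card_le_card (Finset.filter_subset_filter _ h)

theorem gLV : G_LV := by
  classical
  intro hWIN hET n u f g R p C1 hf hg hu hun hp hp1 hV hR hk hw hv
  obtain ⟨W1, W2, _⟩ := hWIN
  obtain ⟨i0, hi0⟩ := hV
  have hn : 0 < n := Fin.pos i0
  have hnR : (0 : ℝ) < n := by exact_mod_cast hn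
  have huR : (0 : ℝ) < u := by exact_mod_cast hu
  have hkpos : (1 : ℝ) ≤ ((Vd g f).card : ℝ) := by
    have : 1 ≤ (Vd g f).card := Finset.card_pos.mpr ⟨i0, hi0⟩
    exact_mod_cast this
  set V := Vd g f with hVdef
  set k : ℝ := (V.card : ℝ) with hkdef
  set d : ℝ := (u : ℝ) ^ 2 / n with hd
  have hdpos : 0 < d := by positivity
  set E : ℝ := n * (u : ℝ) ^ 2 + 3 * (u : ℝ) ^ 5 / n with hE
  set A : ℝ := k * d * (u : ℝ) ^ 2 with hA
  have hApos : 0 < A := by positivity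
  have hEpos : 0 < E := by positivity
  have hEA : 200 * E ≤ p * A := by
    have h1 : 200 * E = (200 * ((n : ℝ) ^ 2 / (u : ℝ) ^ 2 + 3 * u)) * ((u : ℝ) ^ 4 / n) := by
      rw [hE]; field_simp
    have h2 : p * A = (p * k) * ((u : ℝ) ^ 4 / n) := by
      rw [hA, hd]; field_simp
    rw [h1, h2]
    exact mul_le_mul_of_nonneg_right hk (by positivity)
  -- (1)
  have eg := hET ⟨W1, W2, by assumption⟩ n u g hg hu hun
  have ef := hET ⟨W1, W2, by assumption⟩ n u f hf hu hun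
  rw [← hd, ← hE] at eg ef
  have hsg : 0 ≤ ∑ t ∈ Om n u, ((cw u g univ t : ℝ) - d) ^ 2 :=
    Finset.sum_nonneg fun _ _ => sq_nonneg _
  have hsf : 0 ≤ ∑ t ∈ Om n u, ((cw u f univ t : ℝ) - d) ^ 2 :=
    Finset.sum_nonneg fun _ _ => sq_nonneg _
  have mg := miss_nonneg u g
  have mf := miss_nonneg u f
  have hG : ∑ t ∈ Om n u, ((cw u g univ t : ℝ) - d) ^ 2 ≤ E := by linarith
  have hF : ∑ t ∈ Om n u, ((cw u f univ t : ℝ) - d) ^ 2 ≤ E := by linarith
  have hM : miss u f ≤ E := by linarith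
  -- (2)
  have hVsum : ∑ t ∈ Om n u, (cw u g V t : ℝ) = k * (u : ℝ) ^ 2 := W2 n u g V
  set Z : ℝ := ∑ t ∈ Om n u, (cw u g V t : ℝ) ^ 2 with hZ
  have hZ0 : 0 ≤ Z := Finset.sum_nonneg fun _ _ => sq_nonneg _
  have hZle : Z ≤ 2 * A + E := by
    have h1 : Z ≤ ∑ t ∈ Om n u, (d * (cw u g V t : ℝ) + ((cw u g V t : ℝ) ^ 2 / 2 +
        ((cw u g univ t : ℝ) - d) ^ 2 / 2)) := by
      refine Finset.sum_le_sum fun t _ => ?_
      have h2 : (cw u g V t : ℝ) ≤ (cw u g univ t : ℝ) := by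
        exact_mod_cast cw_mono u g V univ (Finset.subset_univ _) t
      have h3 : (0 : ℝ) ≤ (cw u g V t : ℝ) := Nat.cast_nonneg _
      nlinarith [sq_nonneg ((cw u g V t : ℝ) - ((cw u g univ t : ℝ) - d)), mul_nonneg h3 (sub_nonneg.mpr h2)]
    rw [Finset.sum_add_distrib, Finset.sum_add_distrib, ← Finset.mul_sum, hVsum, ← Finset.sum_div,
      ← Finset.sum_div, ← hZ] at h1
    have h4 : d * (k * (u : ℝ) ^ 2) = A := by rw [hA]; ring
    rw [h4] at h1
    linarith
  -- (3)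
  have hCS : ∑ t ∈ Om n u, (cw u g V t : ℝ) * |(cw u f univ t : ℝ) - d| ≤ A / 8 := by
    have h1 := Finset.sum_mul_sq_le_sq_mul_sq (Om n u) (fun t => (cw u g V t : ℝ))
      (fun t => |(cw u f univ t : ℝ) - d|)
    simp only [sq_abs] at h1
    have h2 : (∑ t ∈ Om n u, (cw u g V t : ℝ) * |(cw u f univ t : ℝ) - d|) ^ 2 ≤ (A / 8) ^ 2 := by
      refine h1.trans ?_
      have hE1 : E ≤ A / 200 := by nlinarith
      calc Z * ∑ t ∈ Om n u, ((cw u f univ t : ℝ) - d) ^ 2 ≤ (2 * A + E) * E :=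
            mul_le_mul hZle hF hsf (by positivity)
        _ ≤ (2 * A + A / 200) * (A / 200) := by
            apply mul_le_mul (by linarith) hE1 hEpos.le (by positivity)
        _ ≤ (A / 8) ^ 2 := by nlinarith [sq_nonneg A]
    have h3 := abs_le_of_sq_le_sq h2 (by positivity)
    exact (abs_le.mp h3).2
  have hlow : 3 / 16 * (p * A) ≤ ∑ t ∈ Om n u, (cw u g V t : ℝ) * (cw u f R t : ℝ) := by
    have h1 : ∑ t ∈ Om n u, (p * d / 4 * ((cw u g V t : ℝ) -
        2 / d * ((cw u g V t : ℝ) * |(cw u f univ t : ℝ) - d|))) ≤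
        ∑ t ∈ Om n u, (cw u g V t : ℝ) * (cw u f R t : ℝ) := by
      refine Finset.sum_le_sum fun t ht => ?_
      have hV0 : (0 : ℝ) ≤ (cw u g V t : ℝ) := Nat.cast_nonneg _
      have hR0 : (0 : ℝ) ≤ (cw u f R t : ℝ) := Nat.cast_nonneg _
      have e1 : p * d / 4 * ((cw u g V t : ℝ) -
        2 / d * ((cw u g V t : ℝ) * |(cw u f univ t : ℝ) - d|)) =
        (cw u g V t : ℝ) * (p / 4 * (d - 2 * |(cw u f univ t : ℝ) - d|)) := by
        field_simp
      rw [e1]
      refine mul_le_mul_of_nonneg_left ?_ hV0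
      by_cases hc : d / 2 ≤ (cw u f univ t : ℝ)
      · have h2 := hw t ht hc
        have h3 := abs_nonneg ((cw u f univ t : ℝ) - d)
        nlinarith
      · push Not at hc
        have h3 : d / 2 < |(cw u f univ t : ℝ) - d| := by
          rw [abs_sub_comm]
          have := le_abs_self (d - (cw u f univ t : ℝ))
          linarith
        have h4 : p / 4 * (d - 2 * |(cw u f univ t : ℝ) - d|) ≤ 0 := by
          apply mul_nonpos_of_nonneg_of_nonpos (by positivity)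
          linarith
        linarith
    rw [← Finset.mul_sum, Finset.sum_sub_distrib, ← Finset.mul_sum, hVsum] at h1
    refine le_trans ?_ h1
    have h5 : 2 / d * ∑ t ∈ Om n u, (cw u g V t : ℝ) * |(cw u f univ t : ℝ) - d| ≤
        2 / d * (A / 8) := mul_le_mul_of_nonneg_left hCS (by positivity)
    have h6 : 2 / d * (A / 8) = k * (u : ℝ) ^ 2 / 4 := by
      rw [hA]; field_simp; ring
    rw [h6] at h5
    have h7 : 3 / 16 * (p * A) = p * d / 4 * (k * (u : ℝ) ^ 2 - k * (u : ℝ) ^ 2 / 4) := by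
      rw [hA]; ring
    rw [h7]
    exact mul_le_mul_of_nonneg_left (by linarith) (by positivity)
  -- (4)
  rw [W1 n u g f V R] at hlow
  have hVR : ∀ i ∈ V, ∀ j ∈ R, i ≠ j := by
    intro i hi j hj hij
    rw [hVdef, Vd, Finset.mem_filter] at hi
    apply hi.2
    rw [hij, hR j hj]
  have hfg : ∀ j ∈ R, pt f j = pt g j := by
    intro j hj
    unfold pt
    rw [hR j hj]
  have hcard : ∀ i ∈ V, ((R ∩ A1 u f (pt g i)).card : ℝ) < C1 := by
    intro i hi
    have hi' := hi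
    rw [hVdef, Vd, Finset.mem_filter] at hi
    have hmem : pt g i ∈ Finset.Ico (0 : ℤ) n ×ˢ Finset.Ico (0 : ℤ) n := by
      rw [Finset.mem_product, Finset.mem_Ico, Finset.mem_Ico]
      unfold pt
      have h1 := i.2
      have h2 := (g i).2
      refine ⟨⟨?_, ?_⟩, ?_, ?_⟩
      · exact Int.natCast_nonneg _
      · change ((i : ℕ) : ℤ) < (n : ℤ)
        exact_mod_cast h1
      · exact Int.natCast_nonneg _
      · change (((g i : Fin n) : ℕ) : ℤ) < (n : ℤ)
        exact_mod_cast h2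
    have hnd : ∀ i', pt f i' ≠ pt g i := by
      intro i' h
      unfold pt at h
      rw [Prod.mk.injEq] at h
      have h1 : i' = i := by
        apply Fin.ext
        exact_mod_cast h.1
      apply hi.2
      apply Fin.ext
      rw [h1] at h
      exact_mod_cast h.2.symm
    rcases hv (pt g i) hmem hnd with h | h
    · exact h
    · exfalso
      obtain ⟨j, hj, b, hb, c, hc, hbc, heq⟩ := h
      rw [hfg j hj, hfg b hb, hfg c hc] at heq
      have h1 := hg i j b c (hVR i hi' j hj) heq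
      apply hi.2
      rw [h1.1, hR b hb]
  have hsplit : ∑ i ∈ V, ∑ j ∈ R, wt2 u (pt g i - pt f j) ≤
      ∑ i ∈ V, (u : ℝ) ^ 2 * ((R ∩ A1 u f (pt g i)).card : ℝ) +
      ∑ i ∈ V, ∑ j ∈ R, (if pt g i - pt f j ∉ DD f then wt2 u (pt g i - pt f j) else 0) := by
    rw [← Finset.sum_add_distrib]
    refine Finset.sum_le_sum fun i _ => ?_
    have h1 : (u : ℝ) ^ 2 * ((R ∩ A1 u f (pt g i)).card : ℝ) =
        ∑ j ∈ R, (if pt g i - pt f j ∈ Box u ∧ pt g i - pt f j ∈ DD f then (u : ℝ) ^ 2 else 0) := by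
      rw [← Finset.sum_filter, Finset.sum_const, nsmul_eq_mul, mul_comm]
      congr 3
      ext j
      unfold A1
      simp only [Finset.mem_inter, Finset.mem_filter, Finset.mem_univ, true_and]
    rw [h1, ← Finset.sum_add_distrib]
    refine Finset.sum_le_sum fun j _ => ?_
    by_cases hD : pt g i - pt f j ∈ DD f
    · by_cases hB : pt g i - pt f j ∈ Box u
      · rw [if_pos ⟨hB, hD⟩, if_neg (by simpa using hD)]
        have := wt2_le u (pt g i - pt f j)
        linarith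
      · rw [wt2_eq_zero u _ hB, if_neg (by tauto), if_neg (by simpa using hD)]
        norm_num
    · rw [if_pos hD]
      have : (0 : ℝ) ≤ (if pt g i - pt f j ∈ Box u ∧ pt g i - pt f j ∈ DD f then (u : ℝ) ^ 2 else 0) := by
        split_ifs
        · positivity
        · exact le_rfl
      linarith
  have hfirst : ∑ i ∈ V, (u : ℝ) ^ 2 * ((R ∩ A1 u f (pt g i)).card : ℝ) < k * C1 * (u : ℝ) ^ 2 := by
    have h1 : ∑ i ∈ V, (u : ℝ) ^ 2 * ((R ∩ A1 u f (pt g i)).card : ℝ) < ∑ i ∈ V, (u : ℝ) ^ 2 * C1 := by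
      refine Finset.sum_lt_sum_of_nonempty ⟨i0, hi0⟩ fun i hi => ?_
      exact mul_lt_mul_of_pos_left (hcard i hi) (by positivity)
    rw [Finset.sum_const, nsmul_eq_mul] at h1
    calc _ < _ := h1
      _ = k * C1 * (u : ℝ) ^ 2 := by rw [hkdef]; ring
  have hsecond : ∑ i ∈ V, ∑ j ∈ R,
      (if pt g i - pt f j ∉ DD f then wt2 u (pt g i - pt f j) else 0) ≤ E := by
    refine le_trans ?_ hM
    rw [← Finset.sum_product', ← Finset.sum_filter]
    set Q := (V ×ˢ R).filter (fun x : Fin n × Fin n => pt g x.1 - pt f x.2 ∉ DD f) with hQ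
    have h1 : ∑ x ∈ Q, wt2 u (pt g x.1 - pt f x.2) =
        ∑ x ∈ Q.filter (fun x => pt g x.1 - pt f x.2 ∈ Box u), wt2 u (pt g x.1 - pt f x.2) := by
      rw [Finset.sum_filter (fun x : Fin n × Fin n => pt g x.1 - pt f x.2 ∈ Box u)]
      refine Finset.sum_congr rfl fun x _ => ?_
      split_ifs with h
      · rfl
      · exact wt2_eq_zero u _ h
    rw [h1]
    have hinj : Set.InjOn (fun x : Fin n × Fin n => pt g x.1 - pt f x.2)
        (Q.filter (fun x => pt g x.1 - pt f x.2 ∈ Box u) : Finset (Fin n × Fin n)) := by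
      rintro ⟨i, j⟩ hx ⟨i', j'⟩ hy hxy
      rw [Finset.mem_coe, Finset.mem_filter, hQ, Finset.mem_filter, Finset.mem_product] at hx hy
      simp only at hx hy hxy
      rw [hfg j hx.1.1.2, hfg j' hy.1.1.2] at hxy
      have h2 := hg i j i' j' (hVR i hx.1.1.1 j hx.1.1.2) hxy
      rw [h2.1, h2.2]
    rw [← Finset.sum_image (g := fun x : Fin n × Fin n => pt g x.1 - pt f x.2) (f := fun δ => wt2 u δ) hinj]
    unfold miss
    refine Finset.sum_le_sum_of_subset_of_nonneg ?_ fun _ _ _ => wt2_nonneg _ _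
    intro δ hδ
    rw [Finset.mem_image] at hδ
    obtain ⟨⟨i, j⟩, hx, rfl⟩ := hδ
    rw [Finset.mem_filter, hQ, Finset.mem_filter, Finset.mem_product] at hx
    rw [Finset.mem_filter]
    refine ⟨hx.2, ?_, hx.1.2⟩
    intro h0
    have h3 : i ≠ j := hVR i hx.1.1.1 j hx.1.1.2
    apply h3
    apply Fin.ext
    have h4 := congrArg Prod.fst h0
    simp only [pt, Prod.fst_sub, Prod.fst_zero] at h4
    omega
  -- (5)
  have hfin : 3 / 16 * (p * A) < k * C1 * (u : ℝ) ^ 2 + p * A / 200 := by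
    have : E ≤ p * A / 200 := by linarith
    linarith
  have hpA : 0 < p * A := by positivity
  have h8 : p * A / 8 < k * C1 * (u : ℝ) ^ 2 := by linarith
  have h9 : p * A / 8 = (p * d / 8) * (k * (u : ℝ) ^ 2) := by rw [hA]; ring
  have h10 : k * C1 * (u : ℝ) ^ 2 = C1 * (k * (u : ℝ) ^ 2) := by ring
  rw [h9, h10] at h8
  exact lt_of_mul_lt_mul_right h8 (by positivity)

end Pool.Agent.Helper94.CA
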